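import Mathlib
import Pool.Agent.Y728.AK.JSz

/-!
# The strong Lang-Silverman alternative, with uniform constants, for all forms of the powers of the
# elliptic curves whose invariant is outside a thin set

Let `K` be a number field of degree at most `D`.  The invariants `j ≠ 0, 1728` in `K`, of whatever
height, are ordered by the truncated counting function `jcnt j` of `[0] + [1728] + [∞]`, the sum of
`log N v` over the primes `v` of `K` at which `j` reduces to `0`, `1728` or `∞`.  The exceptional
ones (`Exceptional K`) are those for which the sum of `log N v` over the poles `v` of `j` is less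
than half of the height of `j`.

`E : y² = x³ + a x + b` is an elliptic curve of invariant `j` with `a`, `b` integral of height at
most `κ (1 + h(j))`.  A finite Galois extension `L` of `K` and a faithful representation `ρ` of its
group by integral matrices of size `g` define an abelian variety `A` over `K`, the form of `E ^ g`
with `A(K) = {P ∈ E(L) ^ g | ρ(σ) σ(P) = P for all σ}` (`FixedPt ρ P`); for `g = 1` these are `E`
and all its quadratic twists.  A symmetric positive definite integral matrix `M` with
`ρ(σ)ᵀ M ρ(σ) = M` (`Polar ρ M`) is a polarization of `A` over `K`; the corresponding absolute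
canonical height is `chatM M P / [L : ℚ]`.

`SubvarLe c ρ M P` is the first alternative: the columns of the primitive integral matrix `β` of
size `g × m`, `m < g`, span a sublattice stable under `ρ`, and so define an abelian subvariety
`B` over `K` of dimension `m`, its degree for the polarization is at most `c` times that of `A`, and
`n P` is in `B` for some positive `n ≤ c`.  `Pts L a b` is the group of points over `L`, `sht P` the
height of the `x`-coordinate, `chat P` the canonical height, `RamPrimes K T` says that for each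
prime `v` in `T` there is `σ ≠ 1` in the inertia group, `logNorms T` is the sum of `log N v`,
`v ∈ T`, and `absH` is the absolute logarithmic height.
-/

set_option autoImplicit false

namespace Pool.Agent.Results.MP_f5471b_nt.AlmostAllInvariants

open Pool.Agent.TH910.LS Pool.Agent.Y725.LS NumberField IsDedekindDomain

/-- `j` reduces to `0`, `1728` or `∞` at `v` -/
def Near {K : Type} [Field K] [NumberField K] (j : K) (v : HeightOneSpectrum (𝓞 K)) : Prop :=
  v.valuation K j < 1 ∨ v.valuation K (j - 1728) < 1 ∨ 1 < v.valuation K j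

open Classical in
/-- the truncated counting function of `[0] + [1728] + [∞]` at `j` -/
noncomputable def jcnt {K : Type} [Field K] [NumberField K] (j : K) : ℝ :=
  ∑ᶠ v : HeightOneSpectrum (𝓞 K), if Near j v then Real.log (Ideal.absNorm v.asIdeal) else 0

open Classical in
/-- the sum of `log N v` over the poles `v` of `j` -/
noncomputable def poles {K : Type} [Field K] [NumberField K] (j : K) : ℝ :=
  ∑ᶠ v : HeightOneSpectrum (𝓞 K),
    if 1 < v.valuation K j then Real.log (Ideal.absNorm v.asIdeal) else 0

/-- the invariants with `jcnt j ≤ log X`; there is no condition on their height -/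
def Inv (K : Type) [Field K] [NumberField K] (X : ℝ) : Set K :=
  {j | j ≠ 0 ∧ j ≠ 1728 ∧ jcnt j ≤ Real.log X}

/-- the exceptional invariants: the poles carry less than half of the height -/
def Exceptional (K : Type) [Field K] [NumberField K] : Set K :=
  {j | j ≠ 0 ∧ j ≠ 1728 ∧ 2 * poles j < Height.logHeight₁ j}

/-- the alternative, with the constants `c₁` and `c₂`, for all forms of dimension `g` of the powers
of the curve `y² = x³ + a x + b` over `K` that are split by `L` -/
def Alternative (c₁ : ℝ) (c₂ g : ℕ) {K : Type} [Field K] [NumberField K] (a b : 𝓞 K) (L : Type)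
    [Field L] [NumberField L] [Algebra K L] [DecidableEq L] : Prop :=
  ∀ (ρ : (L ≃ₐ[K] L) →* Matrix (Fin g) (Fin g) ℤ) (M : Matrix (Fin g) (Fin g) ℤ)
    (P : Fin g → Pts L a b) (T : Finset (HeightOneSpectrum (𝓞 L))),
    Faithful ρ → Polar ρ M → FixedPt ρ P → RamPrimes K T →
      SubvarLe c₂ ρ M P ∨
      (¬ IsOfFinAddOrder P ∧
        c₁ * (1 + absH (jinv (a : K) b) + logNorms T / Module.finrank ℚ L) ≤
          chatM M P / Module.finrank ℚ L)

theorem subvar_mono {K : Type} [Field K] [NumberField K] {a b : 𝓞 K} {g : ℕ} {L : Type}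
    [Field L] [NumberField L] [Algebra K L] [DecidableEq L] {c c' : ℕ} (h : c ≤ c')
    {ρ : (L ≃ₐ[K] L) →* Matrix (Fin g) (Fin g) ℤ} {M : Matrix (Fin g) (Fin g) ℤ}
    {P : Fin g → Pts L a b} (hM : Polar ρ M) (hs : SubvarLe c ρ M P) : SubvarLe c' ρ M P := by
  obtain ⟨m, β, hm, h1, h2, h3, n, hn0, hn, h4⟩ := hs
  have hdet : 0 < M.det := by
    have h5 := hM.1.det_pos
    have h6 : (M.map (Int.cast : ℤ → ℝ)).det = (M.det : ℝ) := by
      have := (Int.castRingHom ℝ).map_det M
      simp only [eq_intCast] at this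
      rw [this]
      rfl
    rw [h6] at h5
    exact_mod_cast h5
  refine ⟨m, β, hm, h1, h2, h3.trans ?_, n, hn0, hn.trans h, h4⟩
  have h7 : (c : ℤ) ≤ c' := by exact_mod_cast h
  have h8 : (0 : ℤ) < (g.factorial : ℤ) := by exact_mod_cast Nat.factorial_pos g
  exact mul_le_mul_of_nonneg_right h7 (by positivity)

/-- **Theorem.** (1) The number of the invariants `j` in `K`, of all heights, with
`jcnt j ≤ log X` is finite and `X ^ (2/3 + o(1))`. (2) At most `C X ^ (2/3 - ν)` of them are
exceptional. (3) There are constants `c₁ > 0` and `c₂`, depending only on the bound `D` for the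
degree of `K`, the dimension `g` and `κ`, such that the alternative holds for all forms over `K` of
`E ^ g`, for every elliptic curve `E` over `K` with an invariant which is not exceptional. (4) Every
`j ≠ 0, 1728` is the invariant of a curve with small coefficients, as assumed in (3), with a `κ`
depending only on `D`. -/
theorem result :
    (∀ (K : Type) [Field K] [NumberField K] (δ : ℝ), 0 < δ →
      (∃ C : ℝ, ∀ X : ℝ, 1 ≤ X → (Inv K X).Finite ∧
        ((Inv K X).ncard : ℝ) ≤ C * X ^ (2 / 3 + δ)) ∧
      ∃ X₀ : ℝ, ∀ X : ℝ, X₀ ≤ X → X ^ (2 / 3 - δ) ≤ ((Inv K X).ncard : ℝ)) ∧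
    (∀ (K : Type) [Field K] [NumberField K], ∃ ν C : ℝ, 0 < ν ∧ 0 < C ∧ ∀ X : ℝ, 1 ≤ X →
      ((Exceptional K ∩ Inv K X).ncard : ℝ) ≤ C * X ^ (2 / 3 - ν)) ∧
    (∀ (D g : ℕ) (κ : ℝ), 0 < g → 0 ≤ κ → ∃ c₁ : ℝ, 0 < c₁ ∧ ∃ c₂ : ℕ,
      ∀ (K : Type) [Field K] [NumberField K], Module.finrank ℚ K ≤ D →
      ∀ a b : 𝓞 K, 4 * (a : K) ^ 3 + 27 * (b : K) ^ 2 ≠ 0 →
        absH (a : K) + absH (b : K) ≤ κ * (1 + absH (jinv (a : K) b)) →
        jinv (a : K) b ≠ 0 → jinv (a : K) b ≠ 1728 → jinv (a : K) b ∉ Exceptional K →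
      ∀ (L : Type) [Field L] [NumberField L] [Algebra K L] [IsGalois K L] [DecidableEq L],
        ChatLim L a b ∧ Alternative c₁ c₂ g a b L) ∧
    (∀ D : ℕ, ∃ κ : ℝ, 0 ≤ κ ∧ ∀ (K : Type) [Field K] [NumberField K],
      Module.finrank ℚ K ≤ D → ∀ j : K, j ≠ 0 → j ≠ 1728 → ∃ a b : 𝓞 K,
        4 * (a : K) ^ 3 + 27 * (b : K) ^ 2 ≠ 0 ∧ jinv (a : K) b = j ∧
        absH (a : K) + absH (b : K) ≤ κ * (1 + absH j)) := by
  refine ⟨fun K _ _ δ hδ => ⟨Pool.Agent.Y728.AK.j_all K δ hδ, ?_⟩, fun K _ _ => ?_, ?_,
    Pool.Agent.Y728.AK.exists_model⟩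
  · obtain ⟨X₀, -, h⟩ := Pool.Agent.Y728.AK.j_low K δ hδ
    exact ⟨X₀, h⟩
  · obtain ⟨ν, C, hν, -, hC, h⟩ := Pool.Agent.Y728.AK.jbadset_count K
    exact ⟨ν, C, hν, hC, fun X hX => (h X hX).2⟩
  · intro D g κ hg hκ
    obtain ⟨c, δ, hc, hδ, c₂, h⟩ := strong_main D g 0 hg κ 2 hκ
    obtain ⟨A, c', hc', c₂', h⟩ := h 1 one_ne_zero
    refine ⟨min c c', lt_min hc hc', max c₂ c₂', fun K _ _ hK a b hab hab' h0 h1 hE L _ _ _ _ _ =>
      ⟨chatLim a b hab L, fun ρ M P T hf hM hP hT => ?_⟩⟩
    have hj : Height.logHeight₁ (jinv (a : K) b) ≤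
        2 * Pool.Agent.Y728.AK.jbad (jinv (a : K) b) := by
      by_contra hcon
      rw [not_le] at hcon
      exact hE ⟨h0, h1, hcon⟩
    have hSz := Pool.Agent.Y728.AK.szp hj hab rfl L hδ.le
    have hpos : 0 ≤ 1 + absH (jinv (a : K) b) + logNorms T / Module.finrank ℚ L := by
      have h2 := Pool.Agent.Y728.AK.absH_nonneg (jinv (a : K) b)
      have h3 : 0 ≤ logNorms T / Module.finrank ℚ L :=
        div_nonneg (Finset.sum_nonneg fun _ _ => Real.log_natCast_nonneg _) (Nat.cast_nonneg _)
      linarith
    rcases h K hK a b hab hab' L hSz ρ M P T hf hM hP hT with k | ⟨k1, k2⟩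
    · left
      split_ifs at k
      · exact subvar_mono (le_max_left _ _) hM k
      · exact subvar_mono (le_max_right _ _) hM k
    · right
      refine ⟨k1, le_trans (mul_le_mul_of_nonneg_right ?_ hpos) k2⟩
      split_ifs
      · exact min_le_left _ _
      · exact min_le_right _ _

end Pool.Agent.Results.MP_f5471b_nt.AlmostAllInvariants
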