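import Mathlib
import Pool.Agent.Y557.LF.Jf
import Pool.Agent.Y557.LF.Sz

/-!
# The strong Lang-Silverman alternative in all one-parameter families of elliptic curves: one
exceptional set

Let `K` be a number field and `a_1, …, a_q` distinct elements of `K`, `q ≥ 3`, for example `q = 3`.
We consider ALL number fields `k` containing `K`, all smooth curves over `k` with a finite map `t` to
the line (`A` is the ring of the functions with poles only over `∞`, a Dedekind domain, finite over
`k[t]`), and all functions `j` on the curve, for example the invariants of all elliptic curves over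
the function field: `c_l = j b_l`, where the `b_l` and `c_l` in `A` have no common zero, so that
`b_1 = ⋯ = b_r = 0` are the poles of `j`. `F_j` is an ideal (of the points over `a_j` which are not
poles) with `b_l F_j ⊆ rad (t - a_j)`, and `degree = q - (∑_j dim (A / F_j)) / N`. If `t` is
unramified outside the fibres over the `a_j` and all poles of `j` are over the `a_j` (such a `t`
exists for every curve by Belyi's theorem, with `q = 3`), then, with the reduced ideals `F_j`,
`degree = 2 + (2 g - 2 + s) / N`, where `s` is the number of the poles of `j`.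

The elements `x` of `K`, of all heights, are ordered by the truncated counting function of
`[a_1] + … + [a_q]`; there are `X ^ (2 / q + o(1))` of them for which it is at most `log X`. We
prove that for every `κ > 0` there is a set `E ⊆ K`, which contains only `O(X ^ (2 / q - ν))` of
them, such that in all these families, for all points `P` of degree `≤ D` over `ℚ` above any `x` not
in `E` with `h(x) ≥ C₀` and `d(L) ≤ (degree - 2 κ) h(x)` (if `L = k(P)` is of degree `N` over `k`, then
`d(L)` is at most `(2 + (2 g - 2) / N) h(x) + O(1)`, so that this is no condition if `s / N > 2 κ` and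
`h(x)` is large), the strong form of the Lang-Silverman alternative holds, with constants depending
only on the family, `D`, `g` and `κ'`, for all forms of dimension `g` of the powers of the elliptic
curve of invariant `j(P)`, all polarizations and all rational points.

Forms, polarizations and heights: `y² = x³ + α x + β` is an elliptic curve of invariant `j(P)` with
`α`, `β` integral in `L` of height at most `κ' (1 + h(j(P)))`. A finite Galois extension `W` of `L`
and a faithful representation `ρ` of its group by integral matrices of size `g` define an abelian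
variety over `L`, the form of `E ^ g` with the rational points `P`, `ρ(σ) σ(P) = P` for all `σ`
(`FixedPt ρ P`); for `g = 1` these are the curve and all its quadratic twists. A symmetric positive
definite integral matrix `M` with `ρ(σ)ᵀ M ρ(σ) = M` (`Polar ρ M`) is a polarization; the absolute
canonical height is `chatM M P / [W : ℚ]`. `SubvarLe c ρ M P` is the first alternative: `n P` is in
an abelian subvariety `B` over `L`, `B ≠ A`, for some positive `n ≤ c`, and the degree of `B` is at
most `c` times that of `A`. `RamPrimes L T` says that for each prime `v` in `T` there is `σ ≠ 1` in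
the inertia group, `logNorms T` is the sum of `log N v`, `v ∈ T`.
-/

set_option autoImplicit false

namespace Pool.Agent.Results.MP_f5471b_nt.OneExceptionalSet

open Polynomial IsDedekindDomain NumberField Pool.Agent.TH910.LS Pool.Agent.Y725.LS

/-- The function `t` on the curve with the ring of functions `A`. -/
noncomputable def coord (k A : Type) [Field k] [CommRing A] [Algebra k[X] A] : A :=
  algebraMap k[X] A X

/-- The absolute logarithmic height of the point `x` of the line. -/
noncomputable def height {K : Type} [Field K] [NumberField K] (x : K) : ℝ :=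
  Height.logHeight₁ x / Module.finrank ℚ K

open Classical in
/-- The truncated counting function of `[a_1] + … + [a_q]` at the point `x` of the line over `K`:
the sum of `log N(v)` over the primes `v` of `K` at which `x` and some `a_j` have the same
reduction. -/
noncomputable def counting {K : Type} [Field K] [NumberField K] {q : ℕ}
    (a : Fin q → K) (x : K) : ℝ :=
  ∑ᶠ v : HeightOneSpectrum (𝓞 K),
    if ∃ j, v.valuation K (x - a j) < max (v.valuation K (a j)) 1 * max (v.valuation K x) 1
    then Real.log (Ideal.absNorm v.asIdeal) else 0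

/-- The (absolute) logarithmic discriminant `d(L) = log |disc L| / [L : ℚ]`. -/
noncomputable def logDisc (L : Type) [Field L] [NumberField L] : ℝ :=
  Real.log |(NumberField.discr L : ℝ)| / Module.finrank ℚ L

/-- `q - (∑_j dim (A / F_j)) / N`, where `N` is the rank of `A` over `k[t]`. -/
noncomputable def degree (k : Type) {A : Type} [Field k] [CommRing A] [Algebra k A]
    [Algebra k[X] A] {q : ℕ} (F : Fin q → Ideal A) : ℝ :=
  q - (∑ j, (Module.finrank k (A ⧸ F j) : ℝ)) / Module.finrank k[X] A

/-- The elements `x` of `K`, of whatever height, different from the `a_j`, whose truncated counting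
function with respect to `[a_1] + … + [a_q]` is at most `log X`. -/
def Values {K : Type} [Field K] [NumberField K] {q : ℕ} (a : Fin q → K) (X : ℝ) : Set K :=
  {x | (∀ j, x ≠ a j) ∧ counting a x ≤ Real.log X}

/-- the alternative, with the constants `c₁` and `c₂`, for all forms of dimension `g` of the powers
of the curve `y² = x³ + α x + β` over `L` that are split by `W` -/
def Alternative (c₁ : ℝ) (c₂ g : ℕ) {L : Type} [Field L] [NumberField L] (α β : 𝓞 L) (W : Type)
    [Field W] [NumberField W] [Algebra L W] [DecidableEq W] : Prop :=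
  ∀ (ρ : (W ≃ₐ[L] W) →* Matrix (Fin g) (Fin g) ℤ) (M : Matrix (Fin g) (Fin g) ℤ)
    (P : Fin g → Pts W α β) (T : Finset (HeightOneSpectrum (𝓞 W))),
    Faithful ρ → Polar ρ M → FixedPt ρ P → RamPrimes L T →
      SubvarLe c₂ ρ M P ∨
      (¬ IsOfFinAddOrder P ∧
        c₁ * (1 + absH (jinv (α : L) β) + logNorms T / Module.finrank ℚ W) ≤
          chatM M P / Module.finrank ℚ W)

theorem subvar_mono {K : Type} [Field K] [NumberField K] {a b : 𝓞 K} {g : ℕ} {L : Type}
    [Field L] [NumberField L] [Algebra K L] [DecidableEq L] {c c' : ℕ} (h : c ≤ c')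
    {ρ : (L ≃ₐ[K] L) →* Matrix (Fin g) (Fin g) ℤ} {M : Matrix (Fin g) (Fin g) ℤ}
    {P : Fin g → Pts L a b} (hM : Polar ρ M) (hs : SubvarLe c ρ M P) : SubvarLe c' ρ M P := by
  obtain ⟨m, β, hm, h1, h2, h3, n, hn0, hn, h4⟩ := hs
  have hdet : 0 < M.det := by
    have h5 := hM.1.det_pos
    have h6 : (M.map (Int.cast : ℤ → ℝ)).det = (M.det : ℝ) := by
      have := (Int.castRingHom ℝ).map_det M
      simp only [eq_intCast] at this
      rw [this]
      rfl
    rw [h6] at h5
    exact_mod_cast h5
  refine ⟨m, β, hm, h1, h2, h3.trans ?_, n, hn0, hn.trans h, h4⟩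
  have h7 : (c : ℤ) ≤ c' := by exact_mod_cast h
  have h8 : (0 : ℤ) < (g.factorial : ℤ) := by exact_mod_cast Nat.factorial_pos g
  exact mul_le_mul_of_nonneg_right h7 (by positivity)

open Classical in
theorem counting_eq {K : Type} [Field K] [NumberField K] {q : ℕ}
    (a : Fin q → K) {x : K} (hx : ∀ j, x ≠ a j) :
    counting a x = Pool.Agent.TH876.KR.counting (Pool.Agent.Y557.OE.noS K)
      (fun j => Pool.Agent.Y728.AK.pK (a j)) ![x, 1] := by
  rw [← Pool.Agent.Y728.AK.cntK_eq ∅ a hx]
  unfold counting Pool.Agent.Y728.AK.cntK Pool.Agent.Y728.AK.NearK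
  refine finsum_congr fun v => ?_
  by_cases h : ∃ j,
      v.valuation K (x - a j) < max (v.valuation K (a j)) 1 * max (v.valuation K x) 1
  · exact (if_pos h).trans (if_pos ⟨Finset.notMem_empty v, h⟩).symm
  · exact (if_neg h).trans (if_neg fun h' => h h'.2).symm

theorem form_iff {K : Type} [Field K] {a x : K} :
    Pool.Agent.TH876.KR.form (Pool.Agent.Y728.AK.pK a) ![x, 1] ≠ 0 ↔ x ≠ a := by
  have e : Pool.Agent.TH876.KR.form (Pool.Agent.Y728.AK.pK a) ![x, 1] = a - x := by
    show a * 1 - 1 * x = a - x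
    ring
  rw [e, sub_ne_zero]
  exact ne_comm

/-- an element as a tuple of length one -/
def one {K : Type} (x : K) : Fin 1 → K := fun _ => x

theorem one_bij (K : Type) : Function.Bijective (one : K → Fin 1 → K) := by
  refine ⟨fun x y h => congrFun h 0, fun y => ⟨y 0, ?_⟩⟩
  funext i
  rw [Subsingleton.elim i 0]
  rfl

theorem values_eq {K : Type} [Field K] [NumberField K] {q : ℕ} (a : Fin q → K) (X : ℝ) :
    Values a X = one ⁻¹' Pool.Agent.Y728.MN.TupG (Pool.Agent.Y557.OE.noS K)
      (fun j => Pool.Agent.Y728.AK.pK (a j)) ∅ X := by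
  ext x
  constructor
  · rintro ⟨h1, h2⟩
    refine ⟨fun i => ⟨fun j => form_iff.2 (h1 j), ?_⟩, fun p hp =>
      absurd hp (Finset.notMem_empty p)⟩
    show Pool.Agent.TH876.KR.counting (Pool.Agent.Y557.OE.noS K)
      (fun j => Pool.Agent.Y728.AK.pK (a j)) ![x, 1] ≤ Real.log X
    rw [← counting_eq a h1]
    exact h2
  · rintro ⟨h, -⟩
    obtain ⟨h1, h2⟩ := h 0
    have h3 : ∀ j, x ≠ a j := fun j => form_iff.1 (h1 j)
    refine ⟨h3, ?_⟩
    rw [counting_eq a h3]
    exact h2

theorem ncard_pre {K : Type} (s : Set (Fin 1 → K)) :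
    ((one : K → Fin 1 → K) ⁻¹' s).ncard = s.ncard :=
  Set.ncard_preimage_of_injective_subset_range (one_bij K).1
    ((one_bij K).2.range_eq ▸ Set.subset_univ s)

/-- **The strong Lang-Silverman alternative in all one-parameter families: one exceptional set.**
Let `K` be a number field and `a_1, …, a_q` distinct elements of `K`, `q ≥ 3`.

(1) The number of the elements `x` of `K`, of whatever height, with truncated counting function
`≤ log X` with respect to `[a_1] + … + [a_q]` is `X ^ (2 / q + o(1))`.

(2) For every `κ > 0` there is a set `E ⊆ K` such that at most `C X ^ (2 / q - ν)` of them, for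
large `X` at most `X ^ (-ν)` times their number, are in `E`, and such that the following holds for
all number fields `k` containing `K`. Let `A` be a Dedekind domain, finite over `k[t]` and containing
it (the ring of functions of a smooth affine curve over `k` which is finite over the `t`-line), and
let `b_1, …, b_r, c_1, …, c_r` generate the unit ideal. Let `F_j ≠ 0` be ideals with
`b_l F_j ⊆ rad (t - a_j)`. Then for all `D`, `g ≥ 1` and `κ' ≥ 0` there are constants `C₀`, `c₁ > 0`
and `c₂` such that for all `x` in `K`, different from the `a_j`, which are not in `E`, with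
`h(x) ≥ C₀`, all number fields `L ⊇ k` of degree at most `D` with `d(L) ≤ (degree k F - 2 κ) h(x)`,
all points `P` of the curve over `L` with `t(P) = x`, all elliptic curves `y² = x³ + α x + β` with
`α`, `β` integral in `L` of height at most `κ' (1 + h(j))` and of invariant `j = j(P)`, that is
`c_l(P) = j b_l(P)` for all `l`, satisfy the alternative with the constants `c₁`, `c₂` for all forms
of dimension `g`.

(3) Every `j ≠ 0, 1728` is the invariant of such a curve, with a `κ'` depending only on `D`. -/
theorem result (K : Type) [Field K] [NumberField K] (q : ℕ) (hq : 3 ≤ q) (a : Fin q → K)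
    (ha : Function.Injective a) :
    (∀ δ : ℝ, 0 < δ →
      (∃ C : ℝ, ∀ X : ℝ, 1 ≤ X → (Values a X).Finite ∧
        ((Values a X).ncard : ℝ) ≤ C * X ^ (2 / (q : ℝ) + δ)) ∧
      ∃ X₀ : ℝ, ∀ X : ℝ, X₀ ≤ X → X ^ (2 / (q : ℝ) - δ) ≤ ((Values a X).ncard : ℝ)) ∧
    (∀ κ : ℝ, 0 < κ → ∃ E : Set K,
      (∃ ν C : ℝ, 0 < ν ∧ 0 < C ∧ ∀ X : ℝ, 1 ≤ X →
        ((E ∩ Values a X).ncard : ℝ) ≤ C * X ^ (2 / (q : ℝ) - ν)) ∧
      (∃ ν X₀ : ℝ, 0 < ν ∧ ∀ X : ℝ, X₀ ≤ X →
        ((E ∩ Values a X).ncard : ℝ) ≤ X ^ (-ν) * ((Values a X).ncard : ℝ)) ∧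
      ∀ (k : Type) [Field k] [NumberField k] [Algebra K k] (A : Type) [CommRing A]
        [IsDedekindDomain A] [Algebra k A] [Algebra k[X] A] [IsScalarTower k k[X] A]
        [Module.Finite k[X] A] [FaithfulSMul k[X] A] (r : ℕ) (b c : Fin r → A),
        Ideal.span (Set.range b) ⊔ Ideal.span (Set.range c) = ⊤ →
        ∀ F : Fin q → Ideal A, (∀ j, F j ≠ ⊥) →
        (∀ j l, ∀ e ∈ F j, b l * e ∈
          (Ideal.span {coord k A - algebraMap k A (algebraMap K k (a j))}).radical) →
        ∀ (D g : ℕ) (κ' : ℝ), 0 < g → 0 ≤ κ' → ∃ C₀ c₁ : ℝ, 0 < c₁ ∧ ∃ c₂ : ℕ,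
          ∀ x : K, x ∉ E → (∀ j, x ≠ a j) → C₀ ≤ height x →
          ∀ (L : Type) [Field L] [NumberField L] [Algebra K L] [Algebra k L]
            [IsScalarTower K k L], Module.finrank ℚ L ≤ D →
            logDisc L ≤ (degree k F - 2 * κ) * height x →
          ∀ φ : A →ₐ[k] L, φ (coord k A) = algebraMap K L x →
          ∀ α β : 𝓞 L, 4 * (α : L) ^ 3 + 27 * (β : L) ^ 2 ≠ 0 →
            (∀ l, φ (c l) = jinv (α : L) β * φ (b l)) →
            absH (α : L) + absH (β : L) ≤ κ' * (1 + absH (jinv (α : L) β)) →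
          ∀ (W : Type) [Field W] [NumberField W] [Algebra L W] [IsGalois L W] [DecidableEq W],
            ChatLim W α β ∧ Alternative c₁ c₂ g α β W) ∧
    (∀ D : ℕ, ∃ κ' : ℝ, 0 ≤ κ' ∧ ∀ (L : Type) [Field L] [NumberField L],
      Module.finrank ℚ L ≤ D → ∀ j : L, j ≠ 0 → j ≠ 1728 → ∃ α β : 𝓞 L,
        4 * (α : L) ^ 3 + 27 * (β : L) ^ 2 ≠ 0 ∧ jinv (α : L) β = j ∧
        absH (α : L) + absH (β : L) ≤ κ' * (1 + absH j)) := by
  classical
  have hS : (Pool.Agent.Y557.OE.noS K).Finite := Finset.finite_toSet _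
  have ha' : ∀ i j, i ≠ j → Pool.Agent.TH876.KR.form
      ((fun j => Pool.Agent.Y728.AK.pK (a j)) i) ((fun j => Pool.Agent.Y728.AK.pK (a j)) j) ≠ 0 :=
    fun i j hij => Pool.Agent.Y728.AK.formK_ne' fun h => hij (ha h)
  have hval : ∀ X : ℝ, (Values a X).ncard =
      (Pool.Agent.Y728.MN.TupG (m := 1) (Pool.Agent.Y557.OE.noS K)
        (fun j => Pool.Agent.Y728.AK.pK (a j)) ∅ X).ncard := by
    intro X
    rw [values_eq, ncard_pre]
  have e21 : 2 * ((1 : ℕ) : ℝ) / (q : ℝ) = 2 / q := by push_cast; ring
  have hlow : ∀ δ : ℝ, 0 < δ → ∃ X₀ : ℝ, 1 ≤ X₀ ∧ ∀ X : ℝ, X₀ ≤ X →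
      X ^ (2 / (q : ℝ) - δ) ≤ ((Values a X).ncard : ℝ) := by
    intro δ hδ
    have h := Pool.Agent.Y728.MN.tup_low (m := 1) hq one_pos hS ha' (G := ∅)
      (fun p hp => absurd hp (Finset.notMem_empty p)) δ hδ
    rw [e21] at h
    simp only [hval]
    exact h
  refine ⟨fun δ hδ => ⟨?_, ?_⟩, fun κ hκ => ?_, Pool.Agent.Y728.AK.exists_model⟩
  · obtain ⟨C, h⟩ := Pool.Agent.Y728.MN.tup_all (m := 1) hq one_pos hS ha' ∅ δ hδ
    rw [e21] at h
    refine ⟨C, fun X hX => ⟨?_, ?_⟩⟩
    · rw [values_eq]
      exact (h X hX).1.preimage (one_bij K).1.injOn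
    · rw [hval]
      exact (h X hX).2
  · obtain ⟨X0, -, h⟩ := hlow δ hδ
    exact ⟨X0, h⟩
  obtain ⟨E, hupp, hE⟩ := Pool.Agent.Y557.OE.one_exc K one_pos hq a ha (κ := κ / 2)
    (by positivity)
  rw [e21] at hupp
  have hupp' : ∃ ν C : ℝ, 0 < ν ∧ 0 < C ∧ ∀ X : ℝ, 1 ≤ X →
      ((one ⁻¹' E ∩ Values a X).ncard : ℝ) ≤ C * X ^ (2 / (q : ℝ) - ν) := by
    simp only [values_eq, ← Set.preimage_inter, ncard_pre]
    exact hupp
  refine ⟨one ⁻¹' E, hupp', ?_, ?_⟩
  · obtain ⟨ν, C, hν, hC, h1⟩ := hupp'
    obtain ⟨X0, hX0, h2⟩ := hlow (ν / 2) (by positivity)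
    exact ⟨ν / 4, _, by positivity, Pool.Agent.Y728.AK.ratio_of hν hC hX0 h1 h2⟩
  intro k _ _ _ A _ _ _ _ _ _ _ r b c hbc F hF hbF D g κ' hg hκ'
  obtain ⟨σ, C₀, hσ, hC₀, hj⟩ := Pool.Agent.Y557.LF.jfam hq a b c hbc F hF hbF hκ
  obtain ⟨c₁, δ, hc₁, hδ, c₂, h⟩ := strong_main D g 0 hg κ' σ hκ'
  obtain ⟨A', c₁', hc₁', c₂', h⟩ := h 1 one_ne_zero
  refine ⟨C₀, min c₁ c₁', lt_min hc₁ hc₁', max c₂ c₂', ?_⟩
  intro x hxE hxa hhx L _ _ _ _ _ hD hdL φ hφ α β hαβ hjP hsmall W _ _ _ _ _
  refine ⟨chatLim α β hαβ W, fun ρ M P T hf hM hP hT => ?_⟩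
  obtain ⟨hinj, hnn⟩ := hE (one x) hxE fun _ j => hxa j
  have hfd : FiniteDimensional K L := Module.Finite.of_restrictScalars_finite ℚ K L
  have hd0 : (0 : ℝ) < (Module.finrank ℚ K : ℝ) := by exact_mod_cast Module.finrank_pos
  have hn0 : (0 : ℝ) < (Module.finrank ℚ L : ℝ) := by exact_mod_cast Module.finrank_pos
  have htow : (Module.finrank ℚ L : ℝ) = Module.finrank ℚ K * Module.finrank K L := by
    exact_mod_cast (Module.finrank_mul_finrank ℚ K L).symm
  have hh1 : C₀ ≤ Height.logHeight₁ x := by
    have h1 : (1 : ℝ) ≤ (Module.finrank ℚ K : ℝ) := by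
      exact_mod_cast (Module.finrank_pos : 0 < Module.finrank ℚ K)
    refine hhx.trans (div_le_self (Height.zero_le_logHeight₁ x) h1)
  have hdisc : Real.log |(discr L : ℝ)| ≤ degree k F * (Module.finrank K L *
      Height.logHeight₁ x) - 2 * κ * (Module.finrank K L * Height.logHeight₁ x) := by
    have h1 := mul_le_mul_of_nonneg_left hdL hn0.le
    have e1 : (Module.finrank ℚ L : ℝ) * logDisc L = Real.log |(discr L : ℝ)| := by
      unfold logDisc
      field_simp
    have e2 : (Module.finrank ℚ L : ℝ) * height x =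
        Module.finrank K L * Height.logHeight₁ x := by
      unfold height
      rw [htow]
      field_simp
    have e3 : (Module.finrank ℚ L : ℝ) * ((degree k F - 2 * κ) * height x) =
        (degree k F - 2 * κ) * ((Module.finrank ℚ L : ℝ) * height x) := by ring
    rw [e1, e3, e2] at h1
    linarith
  have hdisc' : Real.log |(discr L : ℝ)| ≤ (degree k F - 2 * κ) * (Module.finrank K L *
      Height.logHeight₁ x) := hdisc.trans (le_of_eq (by ring))
  have hjh : Height.logHeight₁ (jinv (α : L) β) ≤
      σ * Pool.Agent.Y728.AK.jbad (jinv (α : L) β) :=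
    hj (one x) (fun _ j => hxa j) hnn L φ (jinv (α : L) β) hφ hjP hh1 hdisc'
  have hSz := Pool.Agent.Y557.LF.szpS hσ hjh hαβ rfl W hδ.le
  have hpos : 0 ≤ 1 + absH (jinv (α : L) β) + logNorms T / Module.finrank ℚ W := by
    have h2 := Pool.Agent.Y728.AK.absH_nonneg (jinv (α : L) β)
    have h3 : 0 ≤ logNorms T / Module.finrank ℚ W :=
      div_nonneg (Finset.sum_nonneg fun _ _ => Real.log_natCast_nonneg _) (Nat.cast_nonneg _)
    linarith
  rcases h L hD α β hαβ hsmall W hSz ρ M P T hf hM hP hT with k | ⟨k1, k2⟩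
  · left
    split_ifs at k
    · exact subvar_mono (le_max_left _ _) hM k
    · exact subvar_mono (le_max_right _ _) hM k
  · right
    refine ⟨k1, le_trans (mul_le_mul_of_nonneg_right ?_ hpos) k2⟩
    split_ifs
    · exact min_le_left _ _
    · exact min_le_right _ _

end Pool.Agent.Results.MP_f5471b_nt.OneExceptionalSet
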