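import Mathlib
import Pool.Agent.Y725.LS.Final

/-!
# The strong Lang and Silverman bound for forms of powers, under a truncated Szpiro-type bound

`E : y² = x³ + a x + b` is an elliptic curve over a number field `K` of degree at most `D`, with
`a`, `b` integral of height at most `κ (1 + h(j))`.  A finite Galois extension `L` of `K` and a
faithful representation `ρ` of its group by integral matrices of size `g` define an abelian variety
`A` over `K`, the form of `E ^ g` with `A(K) = {P ∈ E(L) ^ g | ρ(σ) σ(P) = P for all σ}`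
(`FixedPt ρ P`).  A symmetric positive definite integral matrix `M` with `ρ(σ)ᵀ M ρ(σ) = M`
(`Polar ρ M`) is a polarization of `A` over `K`, of degree `g! * det M`; the corresponding absolute
canonical height is `chatM M P / [L : ℚ]`.

`BadAt a b w` says that the place `w` of `L` is a place of bad reduction of `E` over `L`, or that
`2 (4 a³ + 27 b²)` is a unit at `w` and some `σ ≠ 1` is in the inertia group of `w`.
`SzpiroLe σ δ s M₀ a b L` says that, leaving out at most `s` places of `K`, the places dividing
`M₀`, and a part of size at most `δ h(j)`, the sum of `log |j|_v` over the places `v` of `K` with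
`|j|_v > 1` is at most `σ` times the sum of `log N w` over a finite set of places `w` with
`BadAt a b w`.

`SubvarLe c ρ M P` is the alternative (a): there are `m < g` and an integral matrix `β` with `m`
columns, which has an integral left inverse and whose columns span a subgroup stable under `ρ`, so
that `B = β(E ^ m)` is an abelian subvariety of `A` over `K`, of degree
`m! * det (βᵀ M β) ≤ c * (g! * det M)`, and `n P = β Q` for some `1 ≤ n ≤ c` and `Q`.

`Pts L a b` is the group of points over `L`, `sht P` the height of the `x`-coordinate,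
`chat P` the canonical height, and `RamPrimes K T` says that for each prime `v` in `T` there is
`σ ≠ 1` in the inertia group.  `logNorms T` is the sum of `log N v`, `v ∈ T`, and `absH` is the
absolute logarithmic height.
-/

set_option autoImplicit false

open Pool.Agent.TH910.LS Pool.Agent.Y725.LS NumberField IsDedekindDomain

theorem Pool.Agent.Results.MP_f5471b_nt.StrongFormsSzpiroRatio.result
    (D g s : ℕ) (hg : 0 < g) (κ σ : ℝ) (hκ : 0 ≤ κ) :
    ∃ c₁ δ : ℝ, 0 < c₁ ∧ 0 < δ ∧ ∃ c₂ : ℕ, ∀ M₀ : ℕ, M₀ ≠ 0 →
    ∃ A c₁' : ℝ, 0 < c₁' ∧ ∃ c₂' : ℕ,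
    ∀ (K : Type) [Field K] [NumberField K], Module.finrank ℚ K ≤ D →
    ∀ a b : 𝓞 K, 4 * (a : K) ^ 3 + 27 * (b : K) ^ 2 ≠ 0 →
      absH (a : K) + absH (b : K) ≤ κ * (1 + absH (jinv (a : K) b)) →
    ∀ (L : Type) [Field L] [NumberField L] [Algebra K L] [IsGalois K L] [DecidableEq L],
      SzpiroLe σ δ s M₀ a b L → ChatLim L a b ∧
      ∀ (ρ : (L ≃ₐ[K] L) →* Matrix (Fin g) (Fin g) ℤ) (M : Matrix (Fin g) (Fin g) ℤ)
        (P : Fin g → Pts L a b) (T : Finset (HeightOneSpectrum (𝓞 L))),
        Faithful ρ → Polar ρ M → FixedPt ρ P → RamPrimes K T →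
        SubvarLe (if A < absH (jinv (a : K) b) then c₂ else c₂') ρ M P ∨
        (¬ IsOfFinAddOrder P ∧ (if A < absH (jinv (a : K) b) then c₁ else c₁') *
            (1 + absH (jinv (a : K) b) + logNorms T / Module.finrank ℚ L) ≤
          chatM M P / Module.finrank ℚ L) := by
  obtain ⟨c₁, δ, hc, hδ, c₂, h⟩ := strong_main D g s hg κ σ hκ
  refine ⟨c₁, δ, hc, hδ, c₂, fun M₀ hM₀ => ?_⟩
  obtain ⟨A, c₁', hc', c₂', h⟩ := h M₀ hM₀
  exact ⟨A, c₁', hc', c₂', fun K _ _ hK a b hab hκ L _ _ _ _ _ hSz => ⟨chatLim a b hab L,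
    fun ρ M P T hf hM hP hT => h K hK a b hab hκ L hSz ρ M P T hf hM hP hT⟩⟩
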